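import Pool.Agent.H48.GSW.Tls

/-!
# Row ONG of the board gsw (MP_c59857_nt, theorem (G)): the inequality for a window and its pieces
-/

set_option autoImplicit false

open Finset Pool.Agent.H6.N4D Pool.Agent.H93 Pool.Agent.H93.GS Pool.Agent.H6.GS2

namespace Pool.Agent.H48.GSW

theorem bad_nonneg (th κ c₁ δ : ℝ) (p₀ : ℕ) (lam : ℕ → ℝ) (q w n : ℕ) :
    0 ≤ bad th κ c₁ δ p₀ lam q w n := by
  unfold bad
  have h1 := ind_nonneg (κ < gap th lam (2 ^ p₀) (2 ^ (w - p₀)) n)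
  have h2 := ind_nonneg (κ < gapq th lam q (2 ^ p₀) (2 ^ (w - p₀)) n)
  have h3 := ind_nonneg (JF lam q (2 ^ w) n (th / 2) δ c₁)
  linarith

/-- the arithmetic of a product -/
theorem am_gm {C A S W η : ℝ} (hη : 0 < η) (hW : 1 / 4 ≤ W) (hS : 0 ≤ S) (hA : 0 ≤ A) :
    C * √A * √S ≤ η * W * S + C ^ 2 / η * A := by
  have h1 : √A ^ 2 = A := Real.sq_sqrt hA
  have h2 : √S ^ 2 = S := Real.sq_sqrt hS
  have h3 : η / 4 * S ≤ η * W * S := by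
    have : η * (1 / 4) ≤ η * W := mul_le_mul_of_nonneg_left hW hη.le
    have := mul_le_mul_of_nonneg_right this hS
    linarith
  have h4 : C * √A * √S ≤ η / 4 * √S ^ 2 + C ^ 2 / η * √A ^ 2 := by
    have h5 : η / 4 * √S ^ 2 + C ^ 2 / η * √A ^ 2 - C * √A * √S =
        (η * √S / 2 - C * √A) ^ 2 / η := by
      field_simp
      ring
    have h6 : 0 ≤ (η * √S / 2 - C * √A) ^ 2 / η := by positivity
    linarith
  rw [h1, h2] at h4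
  linarith

/-- the three bad events of CLA -/
theorem bad_ge (hP : T_PCA) {th κA κ c₁ δ : ℝ} {pA p₀ : ℕ} (lam : ℕ → ℝ) (q w n : ℕ)
    (hth : 0 ≤ th) (hl : ∀ m, |lam m| ≤ 1) (hq : 1 ≤ q) (hκ : κ ≤ κA) (hp : pA ≤ p₀)
    (hw : p₀ ≤ w) :
    EB.ind (κA < gap th lam (2 ^ pA) (2 ^ (w - pA)) n) +
      EB.ind (κA < gapq th lam q (2 ^ pA) (2 ^ (w - pA)) n) +
      EB.ind (JF lam q (2 ^ w) n (th / 2) δ c₁) ≤ bad th κ c₁ δ p₀ lam q w n := by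
  unfold bad
  have h1 : EB.ind (κA < gap th lam (2 ^ pA) (2 ^ (w - pA)) n) ≤
      EB.ind (κ < gap th lam (2 ^ p₀) (2 ^ (w - p₀)) n) :=
    ind_mono fun h => (hκ.trans_lt h).trans_le (gap_mono hP th lam w n hth hl hp hw)
  have h2 : EB.ind (κA < gapq th lam q (2 ^ pA) (2 ^ (w - pA)) n) ≤
      EB.ind (κ < gapq th lam q (2 ^ p₀) (2 ^ (w - p₀)) n) :=
    ind_mono fun h => (hκ.trans_lt h).trans_le (gapq_mono hP th lam q w n hth hl hq hp hw)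
  linarith

/-- the differences of the linear terms -/
theorem lin_part (hP : T_PCA) (hZ : T_SAZ) {th κB CB κ c₁ δ : ℝ} {pB NB p₀ m : ℕ}
    (hth : 0 < th) (hκ : κ ≤ κB) (hp : pB ≤ p₀) (hw : p₀ ≤ m) (hm : 400 ≤ m) (hNB : NB ≤ m)
    (hbrk : ∀ (lam : ℕ → ℝ) (w n : ℕ) (g h : Ex) (A : ℝ), NB ≤ w → (∀ m, |lam m| ≤ 1) → 0 ≤ A →
      Opt th lam 1 (2 ^ w) n g → h.nm ≤ 1 / th → gap th lam (2 ^ pB) (2 ^ (w - pB)) n ≤ κB →
      (∀ (α : ℝ) (v : ℕ → ℕ → ℂ), (∀ q ∈ EB.QQ w, EB.BV (2 ^ w) n (v q)) →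
        ∑ q ∈ EB.QQ w, 1 / (q : ℝ) * EB.zz lam q (2 ^ w) n α (v q) ^ 2 ≤ A ^ 2) →
      ∑ q ∈ EB.QQ w, 1 / (q : ℝ) * |lin lam q (2 ^ w) n g - lin lam q (2 ^ w) n h| ≤
        CB * A * Real.sqrt (En th lam 1 (2 ^ w) n - J th lam 1 (2 ^ w) n h))
    (lam : ℕ → ℝ) (hl : ∀ m, |lam m| ≤ 1) (n : ℕ) (g h : Ex) (hg : Opt th lam 1 (2 ^ m) n g)
    (hgn : g.nm ≤ 1 / th) (hhn : h.nm ≤ 1 / th) {η : ℝ} (hη : 0 < η)
    (hW : 1 / 4 ≤ ∑ q ∈ EB.QQ m, 1 / (q : ℝ)) :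
    ∑ q ∈ EB.QQ m, 1 / (q : ℝ) * |lin lam q (2 ^ m) n g - lin lam q (2 ^ m) n h| ≤
      η * (∑ q ∈ EB.QQ m, 1 / (q : ℝ)) * (En th lam 1 (2 ^ m) n - J th lam 1 (2 ^ m) n h) +
      CB ^ 2 / η * SA lam m n +
      16 / th * ∑ q ∈ EB.QQ m, 1 / (q : ℝ) * bad th κ c₁ δ p₀ lam q m n := by
  have hN1 : 1 ≤ 2 ^ m := Nat.one_le_two_pow
  have hS : 0 ≤ En th lam 1 (2 ^ m) n - J th lam 1 (2 ^ m) n h := by
    linarith [J_le_En th lam 1 (2 ^ m) n hth.le hl le_rfl hN1 h]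
  have hSA : 0 ≤ SA lam m n := (hZ lam m n 0 hm hl).1
  have hbad : 0 ≤ 16 / th * ∑ q ∈ EB.QQ m, 1 / (q : ℝ) * bad th κ c₁ δ p₀ lam q m n := by
    apply mul_nonneg (by positivity)
    exact sum_nonneg fun q _ => mul_nonneg (by positivity) (bad_nonneg _ _ _ _ _ _ _ _ _)
  by_cases hgap : gap th lam (2 ^ pB) (2 ^ (m - pB)) n ≤ κB
  · have h1 := hbrk lam m n g h (√(SA lam m n)) hNB hl (Real.sqrt_nonneg _) hg hhn hgap
      (fun α v hv => by rw [Real.sq_sqrt hSA]; exact (hZ lam m n α hm hl).2.2 v hv)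
    have h2 := am_gm (C := CB) hη hW hS hSA
    linarith
  · push Not at hgap
    have h1 : κ < gap th lam (2 ^ p₀) (2 ^ (m - p₀)) n :=
      (hκ.trans_lt hgap).trans_le (gap_mono hP th lam m n hth.le hl hp hw)
    have h2 : ∀ q ∈ EB.QQ m, 1 ≤ bad th κ c₁ δ p₀ lam q m n := by
      intro q _
      unfold bad
      rw [ind_true h1]
      have h2 := ind_nonneg (κ < gapq th lam q (2 ^ p₀) (2 ^ (m - p₀)) n)
      have h3 := ind_nonneg (JF lam q (2 ^ m) n (th / 2) δ c₁)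
      linarith
    have h3 : ∑ q ∈ EB.QQ m, 1 / (q : ℝ) * |lin lam q (2 ^ m) n g - lin lam q (2 ^ m) n h| ≤
        16 / th * ∑ q ∈ EB.QQ m, 1 / (q : ℝ) * bad th κ c₁ δ p₀ lam q m n := by
      rw [mul_sum]
      apply sum_le_sum
      intro q hq
      obtain ⟨-, hq1, -, -, hqN, -⟩ := ong_q hq
      have h4 := lin_le hl (n := n) hq1 hqN g
      have h5 := lin_le hl (n := n) hq1 hqN h
      have h6 : |lin lam q (2 ^ m) n g - lin lam q (2 ^ m) n h| ≤ 16 / th := by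
        have h7 := abs_sub (lin lam q (2 ^ m) n g) (lin lam q (2 ^ m) n h)
        have h8 : 16 / th = 8 * (1 / th) + 8 * (1 / th) := by ring
        linarith
      have h7 : (0 : ℝ) ≤ 1 / (q : ℝ) := by positivity
      have h8 : (0 : ℝ) ≤ 16 / th := by positivity
      calc 1 / (q : ℝ) * |lin lam q (2 ^ m) n g - lin lam q (2 ^ m) n h|
          ≤ 1 / (q : ℝ) * (16 / th * bad th κ c₁ δ p₀ lam q m n) := by
            apply mul_le_mul_of_nonneg_left _ h7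
            calc _ ≤ 16 / th := h6
              _ = 16 / th * 1 := (mul_one _).symm
              _ ≤ _ := mul_le_mul_of_nonneg_left (h2 q hq) h8
        _ = _ := by ring
    have h4 : 0 ≤ η * (∑ q ∈ EB.QQ m, 1 / (q : ℝ)) *
        (En th lam 1 (2 ^ m) n - J th lam 1 (2 ^ m) n h) :=
      mul_nonneg (mul_nonneg hη.le ((by norm_num : (0 : ℝ) ≤ 1 / 4).trans hW)) hS
    have h5 : 0 ≤ CB ^ 2 / η * SA lam m n := by positivity
    linarith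

/-- the errors of CLA -/
theorem err_part (hP : T_PCA) (hZ : T_SAZ) {th κA κ c₁ δ : ℝ} {pA p₀ r₀ m : ℕ}
    (hth : 0 < th) (hκ : κ ≤ κA) (hp : pA ≤ p₀) (hw : p₀ ≤ m) (hm : 400 ≤ m)
    (lam : ℕ → ℝ) (hl : ∀ m, |lam m| ≤ 1) (n : ℕ) (γ : ℕ → ℝ)
    (hW : ∑ q ∈ EB.QQ m, 1 / (q : ℝ) ≤ 3) :
    ∑ q ∈ EB.QQ m, 1 / (q : ℝ) * (∑ i ∈ range r₀, zA lam q (2 ^ m) n (γ i) ^ 2 +
          EB.ind (κA < gap th lam (2 ^ pA) (2 ^ (m - pA)) n) +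
          EB.ind (κA < gapq th lam q (2 ^ pA) (2 ^ (m - pA)) n) +
          EB.ind (JF lam q (2 ^ m) n (th / 2) δ c₁) + EB.ind (Exc q (2 ^ m) r₀ γ) +
          (1 / 2) ^ (m / 4)) ≤
      r₀ * SA lam m n + ∑ q ∈ EB.QQ m, 1 / (q : ℝ) * bad th κ c₁ δ p₀ lam q m n +
        ((r₀ : ℝ) ^ 2 + 3) * (1 / 2) ^ (m / 1000) := by
  have h1 : ∑ q ∈ EB.QQ m, 1 / (q : ℝ) * ∑ i ∈ range r₀, zA lam q (2 ^ m) n (γ i) ^ 2 ≤
      r₀ * SA lam m n := by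
    have e1 : ∀ q ∈ EB.QQ m, 1 / (q : ℝ) * ∑ i ∈ range r₀, zA lam q (2 ^ m) n (γ i) ^ 2 =
        ∑ i ∈ range r₀, 1 / (q : ℝ) * zA lam q (2 ^ m) n (γ i) ^ 2 := fun q _ => mul_sum _ _ _
    rw [sum_congr rfl e1, sum_comm]
    calc ∑ i ∈ range r₀, ∑ q ∈ EB.QQ m, 1 / (q : ℝ) * zA lam q (2 ^ m) n (γ i) ^ 2
        ≤ ∑ _i ∈ range r₀, SA lam m n :=
          sum_le_sum fun i _ => (hZ lam m n (γ i) hm hl).2.1
      _ = r₀ * SA lam m n := by rw [sum_const, card_range, nsmul_eq_mul]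
  have h2 := exc_sum hm r₀ γ
  have h3 : ∑ q ∈ EB.QQ m, 1 / (q : ℝ) * ((1 : ℝ) / 2) ^ (m / 4) ≤
      3 * (1 / 2) ^ (m / 1000) := by
    rw [← sum_mul]
    have h4 : ((1 : ℝ) / 2) ^ (m / 4) ≤ (1 / 2) ^ (m / 1000) :=
      pow_le_pow_of_le_one (by norm_num) (by norm_num)
        (Nat.div_le_div_left (by norm_num) (by norm_num))
    exact mul_le_mul hW h4 (by positivity) (by norm_num)
  have h4 : ∑ q ∈ EB.QQ m, 1 / (q : ℝ) * (∑ i ∈ range r₀, zA lam q (2 ^ m) n (γ i) ^ 2 +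
          EB.ind (κA < gap th lam (2 ^ pA) (2 ^ (m - pA)) n) +
          EB.ind (κA < gapq th lam q (2 ^ pA) (2 ^ (m - pA)) n) +
          EB.ind (JF lam q (2 ^ m) n (th / 2) δ c₁) + EB.ind (Exc q (2 ^ m) r₀ γ) +
          (1 / 2) ^ (m / 4)) ≤
      ∑ q ∈ EB.QQ m, (1 / (q : ℝ) * ∑ i ∈ range r₀, zA lam q (2 ^ m) n (γ i) ^ 2 +
        1 / (q : ℝ) * bad th κ c₁ δ p₀ lam q m n + 1 / (q : ℝ) * EB.ind (Exc q (2 ^ m) r₀ γ) +
        1 / (q : ℝ) * ((1 : ℝ) / 2) ^ (m / 4)) := by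
    apply sum_le_sum
    intro q hq
    obtain ⟨-, hq1, -, -, -, -⟩ := ong_q hq
    have h5 := bad_ge (c₁ := c₁) (δ := δ) hP lam q m n hth.le hl hq1 hκ hp hw
    have h6 : (0 : ℝ) ≤ 1 / (q : ℝ) := by positivity
    have h7 := mul_le_mul_of_nonneg_left h5 h6
    linarith
  refine h4.trans ?_
  rw [sum_add_distrib, sum_add_distrib, sum_add_distrib]
  linarith

/-- one piece -/
theorem piece (hA : GS.T_CLA) (hR : GS.T_BRK) (hO : T_OPD) (hB : T_BNM) (hP : T_PCA)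
    (hD : T_DQG) (hZ : T_SAZ) (th : ℝ) (hth : 0 < th) (hth1 : th ≤ 1) :
    ∃ (κ c₁ δ C : ℝ) (p₀ m₁ : ℕ), 0 < κ ∧ 0 < c₁ ∧ 0 < δ ∧ 0 < C ∧ 4 * p₀ ≤ m₁ ∧
      ∀ (η : ℝ) (m n : ℕ) (lam : ℕ → ℝ) (h : Ex), 0 < η → η ≤ 1 → m₁ ≤ m →
        (∀ m, |lam m| ≤ 1) → h.nm ≤ 1 / th →
        ∑ q ∈ EB.QQ m, 1 / (q : ℝ) * (En th lam q (2 ^ m) n - J th lam q (2 ^ m) n h) ≤
          (1 + η) * (∑ q ∈ EB.QQ m, 1 / (q : ℝ)) *
            (En th lam 1 (2 ^ m) n - J th lam 1 (2 ^ m) n h) +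
          C / η * (SA lam m n + ∑ q ∈ EB.QQ m, 1 / (q : ℝ) *
            bad th κ c₁ δ p₀ lam q m n + (1 / 2) ^ (m / 1000)) := by
  obtain ⟨κA, c₁, δ, CA, pA, r₀, NA, hκA, hc₁, hδ, hCA, hcla⟩ := hA th hth hth1
  obtain ⟨κB, CB, pB, NB, hκB, hCB, hbrk⟩ := hR th hth hth1
  obtain ⟨mD, hdq⟩ := hD
  obtain ⟨mQ, hqm⟩ := Pool.Agent.H20.ENM.pf_QMS
  refine ⟨min κA κB, c₁, δ,
    CB ^ 2 + CA * r₀ + (16 / th + CA) + (1 / th ^ 2 + CA * (r₀ ^ 2 + 3)), max pA pB,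
    4 * max pA pB + 400 + NA + NB + mD + mQ, lt_min hκA hκB, hc₁, hδ, by positivity,
    by omega, ?_⟩
  intro η m n lam h hη hη1 hm hl hh
  have hpm : max pA pB ≤ m := by omega
  obtain ⟨hW1, hW2⟩ := hqm m (by omega)
  have hN1 : 1 ≤ 2 ^ m := Nat.one_le_two_pow
  obtain ⟨g, hg, -⟩ := hO th lam 1 (2 ^ m) n hth hl le_rfl hN1
  have hgn : g.nm ≤ 1 / th := by
    have h1 := (hB th lam 1 (2 ^ m) n g hth hl le_rfl hN1 hg).1
    have h2 : (((1 : ℕ) : ℝ)) / ((2 ^ m : ℕ) : ℝ) ≤ 1 := by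
      rw [div_le_one (by positivity)]
      exact_mod_cast hN1
    rw [le_div_iff₀ hth]
    linarith
  obtain ⟨γ, hγ⟩ := hcla lam m n g (by omega) hl hg
  have hlin := lin_part (c₁ := c₁) (δ := δ) hP hZ hth (min_le_right κA κB)
    (le_max_right pA pB) hpm (by omega) (by omega) hbrk lam hl n g h hg hgn hh hη hW1
  have herr := err_part (c₁ := c₁) (δ := δ) (r₀ := r₀) hP hZ hth (min_le_left κA κB)
    (le_max_left pA pB) hpm (by omega) lam hl n γ hW2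
  have hdqh := hdq m n h h (by omega)
  -- one prime
  have h1 : ∀ q ∈ EB.QQ m, 1 / (q : ℝ) * (En th lam q (2 ^ m) n - J th lam q (2 ^ m) n h) ≤
      1 / (q : ℝ) * (En th lam 1 (2 ^ m) n - J th lam 1 (2 ^ m) n h) +
      1 / (q : ℝ) * |lin lam q (2 ^ m) n g - lin lam q (2 ^ m) n h| +
      1 / (q : ℝ) * ‖ac 1 (2 ^ m) n (fun x => (EB.D q x : ℂ) * h.f x *
        (starRingEnd ℂ) (h.f x))‖ +
      CA * (1 / (q : ℝ) * (∑ i ∈ range r₀, zA lam q (2 ^ m) n (γ i) ^ 2 +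
          EB.ind (κA < gap th lam (2 ^ pA) (2 ^ (m - pA)) n) +
          EB.ind (κA < gapq th lam q (2 ^ pA) (2 ^ (m - pA)) n) +
          EB.ind (JF lam q (2 ^ m) n (th / 2) δ c₁) + EB.ind (Exc q (2 ^ m) r₀ γ) +
          (1 / 2) ^ (m / 4))) := by
    intro q hq
    obtain ⟨hqp, hq1, -, -, hqN, hq100⟩ := ong_q hq
    have h2 := hγ q hqp hq100
    have h3 := J_sub th lam q (2 ^ m) n h
    have h4 := (abs_le.1 (nrm_le q (2 ^ m) n h)).2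
    have h5 := le_abs_self (lin lam q (2 ^ m) n g - lin lam q (2 ^ m) n h)
    have h6 : (0 : ℝ) ≤ 1 / (q : ℝ) := by positivity
    have h7 : En th lam q (2 ^ m) n - J th lam q (2 ^ m) n h ≤
        (En th lam 1 (2 ^ m) n - J th lam 1 (2 ^ m) n h) +
        |lin lam q (2 ^ m) n g - lin lam q (2 ^ m) n h| +
        ‖ac 1 (2 ^ m) n (fun x => (EB.D q x : ℂ) * h.f x * (starRingEnd ℂ) (h.f x))‖ +
        CA * (∑ i ∈ range r₀, zA lam q (2 ^ m) n (γ i) ^ 2 +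
          EB.ind (κA < gap th lam (2 ^ pA) (2 ^ (m - pA)) n) +
          EB.ind (κA < gapq th lam q (2 ^ pA) (2 ^ (m - pA)) n) +
          EB.ind (JF lam q (2 ^ m) n (th / 2) δ c₁) + EB.ind (Exc q (2 ^ m) r₀ γ) +
          (1 / 2) ^ (m / 4)) := by linarith
    refine (mul_le_mul_of_nonneg_left h7 h6).trans (le_of_eq ?_)
    ring
  have h2 := sum_le_sum h1
  rw [sum_add_distrib, sum_add_distrib, sum_add_distrib, ← sum_mul, ← mul_sum] at h2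
  -- the constants
  have hSA : 0 ≤ SA lam m n := (hZ lam m n 0 (by omega) hl).1
  have hBd : 0 ≤ ∑ q ∈ EB.QQ m, 1 / (q : ℝ) *
      bad th (min κA κB) c₁ δ (max pA pB) lam q m n :=
    sum_nonneg fun q _ => mul_nonneg (by positivity) (bad_nonneg _ _ _ _ _ _ _ _ _)
  have hε : (0 : ℝ) ≤ (1 / 2) ^ (m / 1000) := by positivity
  have hnm : h.nm * h.nm * ((1 : ℝ) / 2) ^ (m / 1000) ≤
      1 / th ^ 2 * (1 / 2) ^ (m / 1000) := by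
    apply mul_le_mul_of_nonneg_right _ hε
    calc h.nm * h.nm ≤ 1 / th * (1 / th) :=
          mul_le_mul hh hh (nm_nonneg h) (by positivity)
      _ = 1 / th ^ 2 := by rw [one_div_mul_one_div]; ring
  have hu : 1 ≤ 1 / η := by rw [le_div_iff₀ hη]; linarith
  set S := SA lam m n
  set B := ∑ q ∈ EB.QQ m, 1 / (q : ℝ) * bad th (min κA κB) c₁ δ (max pA pB) lam q m n
  set e := ((1 : ℝ) / 2) ^ (m / 1000)
  have h16 : 0 ≤ 16 / th := by positivity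
  have ht2 : 0 ≤ 1 / th ^ 2 := by positivity
  have hCr : 0 ≤ CA * (r₀ : ℝ) := by positivity
  have hCr2 : 0 ≤ CA * ((r₀ : ℝ) ^ 2 + 3) := by positivity
  have hCB2 : 0 ≤ CB ^ 2 := sq_nonneg _
  have k1 : CB ^ 2 / η * S + CA * r₀ * S ≤
      (CB ^ 2 + CA * r₀ + (16 / th + CA) + (1 / th ^ 2 + CA * (r₀ ^ 2 + 3))) / η * S := by
    rw [← add_mul]
    apply mul_le_mul_of_nonneg_right _ hSA
    have e1 : CA * (r₀ : ℝ) ≤ CA * r₀ * (1 / η) := le_mul_of_one_le_right hCr hu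
    have e2 : 0 ≤ ((16 / th + CA) + (1 / th ^ 2 + CA * ((r₀ : ℝ) ^ 2 + 3))) * (1 / η) := by
      positivity
    have e3 : (CB ^ 2 + CA * r₀ + (16 / th + CA) + (1 / th ^ 2 + CA * ((r₀ : ℝ) ^ 2 + 3))) / η =
        CB ^ 2 / η + CA * r₀ * (1 / η) +
          ((16 / th + CA) + (1 / th ^ 2 + CA * ((r₀ : ℝ) ^ 2 + 3))) * (1 / η) := by ring
    rw [e3]; linarith
  have k2 : (16 / th + CA) * B ≤
      (CB ^ 2 + CA * r₀ + (16 / th + CA) + (1 / th ^ 2 + CA * (r₀ ^ 2 + 3))) / η * B := by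
    apply mul_le_mul_of_nonneg_right _ hBd
    have e1 : 16 / th + CA ≤ (16 / th + CA) * (1 / η) :=
      le_mul_of_one_le_right (by positivity) hu
    have e2 : 0 ≤ (CB ^ 2 + CA * r₀ + (1 / th ^ 2 + CA * ((r₀ : ℝ) ^ 2 + 3))) * (1 / η) := by
      positivity
    have e3 : (CB ^ 2 + CA * r₀ + (16 / th + CA) + (1 / th ^ 2 + CA * ((r₀ : ℝ) ^ 2 + 3))) / η =
        (16 / th + CA) * (1 / η) +
          (CB ^ 2 + CA * r₀ + (1 / th ^ 2 + CA * ((r₀ : ℝ) ^ 2 + 3))) * (1 / η) := by ring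
    rw [e3]; linarith
  have k3 : (1 / th ^ 2 + CA * (r₀ ^ 2 + 3)) * e ≤
      (CB ^ 2 + CA * r₀ + (16 / th + CA) + (1 / th ^ 2 + CA * (r₀ ^ 2 + 3))) / η * e := by
    apply mul_le_mul_of_nonneg_right _ hε
    have e1 : 1 / th ^ 2 + CA * ((r₀ : ℝ) ^ 2 + 3) ≤
        (1 / th ^ 2 + CA * ((r₀ : ℝ) ^ 2 + 3)) * (1 / η) :=
      le_mul_of_one_le_right (by positivity) hu
    have e2 : 0 ≤ (CB ^ 2 + CA * r₀ + (16 / th + CA)) * (1 / η) := by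
      positivity
    have e3 : (CB ^ 2 + CA * r₀ + (16 / th + CA) + (1 / th ^ 2 + CA * ((r₀ : ℝ) ^ 2 + 3))) / η =
        (1 / th ^ 2 + CA * ((r₀ : ℝ) ^ 2 + 3)) * (1 / η) +
          (CB ^ 2 + CA * r₀ + (16 / th + CA)) * (1 / η) := by ring
    rw [e3]; linarith
  have herr' := mul_le_mul_of_nonneg_left herr hCA.le
  have k4 : CA * (r₀ * S + B + ((r₀ : ℝ) ^ 2 + 3) * e) =
      CA * r₀ * S + CA * B + CA * ((r₀ : ℝ) ^ 2 + 3) * e := by ring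
  rw [k4] at herr'
  set K := (CB ^ 2 + CA * r₀ + (16 / th + CA) + (1 / th ^ 2 + CA * ((r₀ : ℝ) ^ 2 + 3))) / η
  have k5 : K * (S + B + e) = K * S + K * B + K * e := by ring
  rw [k5]
  have k6 : (1 + η) * (∑ q ∈ EB.QQ m, 1 / (q : ℝ)) *
      (En th lam 1 (2 ^ m) n - J th lam 1 (2 ^ m) n h) =
      (∑ q ∈ EB.QQ m, 1 / (q : ℝ)) * (En th lam 1 (2 ^ m) n - J th lam 1 (2 ^ m) n h) +
      η * (∑ q ∈ EB.QQ m, 1 / (q : ℝ)) *
        (En th lam 1 (2 ^ m) n - J th lam 1 (2 ^ m) n h) := by ring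
  rw [k6]
  linarith only [h2, hlin, hdqh, hnm, herr', k1, k2, k3]

theorem pf_ONG (hA : GS.T_CLA) (hR : GS.T_BRK) (hO : T_OPD) (hB : T_BNM) (hP : T_PCA)
    (hD : T_DQG) (hZ : T_SAZ) : T_ONG := by
  intro th hth hth1
  obtain ⟨κ, c₁, δ, C, p₀, m₁, hκ, hc₁, hδ, hC, hp, hpc⟩ :=
    piece hA hR hO hB hP hD hZ th hth hth1
  refine ⟨κ, c₁, δ, C, p₀, m₁, hκ, hc₁, hδ, hC, hp, ?_⟩
  intro η P m n lam hη hη1 hP1 hm hl
  have hL1 : 1 ≤ 2 ^ m := Nat.one_le_two_pow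
  have hN1 : 1 ≤ P * 2 ^ m := Nat.mul_pos hP1 hL1
  have hPR : (0 : ℝ) < P := by exact_mod_cast hP1
  obtain ⟨g, hg, -⟩ := hO th lam 1 (P * 2 ^ m) n hth hl le_rfl hN1
  have hgn : g.nm ≤ 1 / th := by
    have h1 := (hB th lam 1 (P * 2 ^ m) n g hth hl le_rfl hN1 hg).1
    have h2 : (((1 : ℕ) : ℝ)) / ((P * 2 ^ m : ℕ) : ℝ) ≤ 1 := by
      rw [div_le_one (by exact_mod_cast hN1)]
      exact_mod_cast hN1
    rw [le_div_iff₀ hth]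
    linarith
  -- the defects for `q`
  have h1 : ∀ q ∈ EB.QQ m, 1 / (q : ℝ) * gapq th lam q P (2 ^ m) n ≤
      (∑ j ∈ range P, 1 / (q : ℝ) * (En th lam q (2 ^ m) (n + j * 2 ^ m) -
        J th lam q (2 ^ m) (n + j * 2 ^ m) g)) / P := by
    intro q hq
    obtain ⟨-, hq1, -, -, -, -⟩ := ong_q hq
    have h2 := J_le_En th lam q (P * 2 ^ m) n hth.le hl hq1 hN1 g
    rw [(hP q P (2 ^ m) n hP1 hL1).2.2 th lam g] at h2
    rw [← mul_sum, sum_sub_distrib, mul_div_assoc, sub_div]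
    have h3 : (0 : ℝ) ≤ 1 / (q : ℝ) := by positivity
    apply mul_le_mul_of_nonneg_left _ h3
    unfold gapq
    linarith
  have h2 : gap th lam P (2 ^ m) n = (∑ j ∈ range P, (En th lam 1 (2 ^ m) (n + j * 2 ^ m) -
      J th lam 1 (2 ^ m) (n + j * 2 ^ m) g)) / P := by
    unfold gap
    rw [← hg.mx, (hP 1 P (2 ^ m) n hP1 hL1).2.2 th lam g, sum_sub_distrib, sub_div]
  have h3 : ∑ q ∈ EB.QQ m, 1 / (q : ℝ) * gapq th lam q P (2 ^ m) n ≤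
      (∑ j ∈ range P, ∑ q ∈ EB.QQ m, 1 / (q : ℝ) * (En th lam q (2 ^ m) (n + j * 2 ^ m) -
        J th lam q (2 ^ m) (n + j * 2 ^ m) g)) / P := by
    refine (sum_le_sum h1).trans (le_of_eq ?_)
    rw [← sum_div, sum_comm]
  have h4 : ∑ j ∈ range P, ∑ q ∈ EB.QQ m, 1 / (q : ℝ) *
      (En th lam q (2 ^ m) (n + j * 2 ^ m) - J th lam q (2 ^ m) (n + j * 2 ^ m) g) ≤
      ∑ j ∈ range P, ((1 + η) * (∑ q ∈ EB.QQ m, 1 / (q : ℝ)) *
            (En th lam 1 (2 ^ m) (n + j * 2 ^ m) - J th lam 1 (2 ^ m) (n + j * 2 ^ m) g) +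
          C / η * (SA lam m (n + j * 2 ^ m) + ∑ q ∈ EB.QQ m, 1 / (q : ℝ) *
            bad th κ c₁ δ p₀ lam q m (n + j * 2 ^ m) + (1 / 2) ^ (m / 1000))) :=
    sum_le_sum fun j _ => hpc η m (n + j * 2 ^ m) lam g hη hη1 hm hl hgn
  rw [sum_add_distrib, ← mul_sum, ← mul_sum] at h4
  have h5 : ∑ j ∈ range P, (SA lam m (n + j * 2 ^ m) + ∑ q ∈ EB.QQ m, 1 / (q : ℝ) *
      bad th κ c₁ δ p₀ lam q m (n + j * 2 ^ m) + ((1 : ℝ) / 2) ^ (m / 1000)) =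
      ∑ j ∈ range P, (SA lam m (n + j * 2 ^ m) + ∑ q ∈ EB.QQ m, 1 / (q : ℝ) *
        bad th κ c₁ δ p₀ lam q m (n + j * 2 ^ m)) + P * (1 / 2) ^ (m / 1000) := by
    rw [sum_add_distrib, sum_const, card_range, nsmul_eq_mul]
  rw [h5] at h4
  rw [h2]
  refine h3.trans ((div_le_div_of_nonneg_right h4 hPR.le).trans (le_of_eq ?_))
  field_simp

end Pool.Agent.H48.GSW
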