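import Pool.Agent.H6.GS2.Targets
import Pool.Agent.H78.N4.LEVB

/-!
# Row SAZ of the board gsw (MP_c59857_nt, theorem (G)): the worst frequency and the worst weights
-/

set_option autoImplicit false

open Finset Pool.Agent.H6.N4D Pool.Agent.H93 Pool.Agent.H93.GS Pool.Agent.H6.GS2

namespace Pool.Agent.H48.GSW

private theorem saz_q {w q : ℕ} (hq : q ∈ EB.QQ w) : 1 ≤ q ∧ q ≤ 2 ^ w := by
  unfold EB.QQ at hq
  rw [mem_filter, mem_Ioc] at hq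
  refine ⟨hq.2.one_lt.le, hq.1.2.trans (Nat.pow_le_pow_right (by norm_num) ?_)⟩
  omega

private theorem saz_bv0 (N n : ℕ) : EB.BV N n (fun _ => 0) := by
  constructor
  · intro m _; simp
  · simp

private theorem saz_nn (lam : ℕ → ℝ) (q N n : ℕ) (α : ℝ) (g : ℕ → ℂ) :
    0 ≤ EB.zz lam q N n α g := norm_nonneg _

private theorem saz_zA (lam : ℕ → ℝ) (hl : ∀ m, |lam m| ≤ 1) (q N n : ℕ) (hq : 1 ≤ q)
    (hN : q ≤ N) (γ : ℝ) : 0 ≤ zA lam q N n γ ∧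
    ∀ e : ℝ, 0 < e → ∃ v : ℕ → ℂ, EB.BV N n v ∧ zA lam q N n γ ≤ EB.zz lam q N n γ v + e := by
  have hbdd : BddAbove {x | ∃ g : ℕ → ℂ, EB.BV N n g ∧ x = EB.zz lam q N n γ g} := by
    refine ⟨3, ?_⟩
    rintro x ⟨g, hg, rfl⟩
    exact Pool.Agent.H78.N4.LEV.zz_le lam hl q N n hq hN γ g hg
  have hne : {x | ∃ g : ℕ → ℂ, EB.BV N n g ∧ x = EB.zz lam q N n γ g}.Nonempty :=
    ⟨_, fun _ => 0, saz_bv0 N n, rfl⟩
  refine ⟨(saz_nn lam q N n γ (fun _ => 0)).trans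
    (le_csSup hbdd ⟨fun _ => 0, saz_bv0 N n, rfl⟩), fun e he => ?_⟩
  obtain ⟨x, ⟨v, hv, rfl⟩, hx⟩ := exists_lt_of_lt_csSup hne
    (show zA lam q N n γ - e < sSup {x | ∃ g : ℕ → ℂ, EB.BV N n g ∧
      x = EB.zz lam q N n γ g} by
        show zA lam q N n γ - e < zA lam q N n γ
        linarith)
  exact ⟨v, hv, by linarith⟩

theorem pf_SAZ : T_SAZ := by
  intro lam w n γ _ hl
  have hinv : ∀ q ∈ EB.QQ w, (0 : ℝ) ≤ 1 / (q : ℝ) := fun q _ => by positivity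
  have hz3 : ∀ q ∈ EB.QQ w, ∀ (α : ℝ) (v : ℕ → ℂ), EB.BV (2 ^ w) n v →
      EB.zz lam q (2 ^ w) n α v ≤ 3 := fun q hq α v hv =>
    Pool.Agent.H78.N4.LEV.zz_le lam hl q (2 ^ w) n (saz_q hq).1 (saz_q hq).2 α v hv
  have hbdd : BddAbove {x | ∃ (α : ℝ) (v : ℕ → ℕ → ℂ),
      (∀ q ∈ EB.QQ w, EB.BV (2 ^ w) n (v q)) ∧
      x = ∑ q ∈ EB.QQ w, 1 / (q : ℝ) * EB.zz lam q (2 ^ w) n α (v q) ^ 2} := by
    refine ⟨∑ q ∈ EB.QQ w, 1 / (q : ℝ) * 3 ^ 2, ?_⟩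
    rintro x ⟨α, v, hv, rfl⟩
    refine sum_le_sum fun q hq => mul_le_mul_of_nonneg_left ?_ (hinv q hq)
    exact pow_le_pow_left₀ (saz_nn _ _ _ _ _ _) (hz3 q hq α (v q) (hv q hq)) 2
  have h3 : ∀ (α : ℝ) (v : ℕ → ℕ → ℂ), (∀ q ∈ EB.QQ w, EB.BV (2 ^ w) n (v q)) →
      ∑ q ∈ EB.QQ w, 1 / (q : ℝ) * EB.zz lam q (2 ^ w) n α (v q) ^ 2 ≤ SA lam w n :=
    fun α v hv => le_csSup hbdd ⟨α, v, hv, rfl⟩
  refine ⟨?_, ?_, h3 γ⟩
  · refine le_trans (sum_nonneg fun q hq => ?_) (h3 γ (fun _ _ => 0) fun q _ => saz_bv0 _ _)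
    exact mul_nonneg (hinv q hq) (sq_nonneg _)
  · refine le_of_forall_pos_le_add fun ε hε => ?_
    set S : ℝ := ∑ q ∈ EB.QQ w, 1 / (q : ℝ) with hS
    have hS0 : 0 ≤ S := sum_nonneg hinv
    set e : ℝ := min 1 (ε / (7 * S + 1)) with he
    have he0 : 0 < e := lt_min one_pos (by positivity)
    have he1 : e ≤ 1 := min_le_left _ _
    have he2 : 7 * e * S ≤ ε := by
      have h : e ≤ ε / (7 * S + 1) := min_le_right _ _
      rw [le_div_iff₀ (by positivity)] at h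
      nlinarith
    have hch : ∀ q : ℕ, ∃ v : ℕ → ℂ, q ∈ EB.QQ w → EB.BV (2 ^ w) n v ∧
        zA lam q (2 ^ w) n γ ≤ EB.zz lam q (2 ^ w) n γ v + e := by
      intro q
      by_cases hq : q ∈ EB.QQ w
      · obtain ⟨v, hv, hz⟩ := (saz_zA lam hl q (2 ^ w) n (saz_q hq).1 (saz_q hq).2 γ).2 e he0
        exact ⟨v, fun _ => ⟨hv, hz⟩⟩
      · exact ⟨fun _ => 0, fun h => absurd h hq⟩
    choose v hv using hch
    have h4 := h3 γ v fun q hq => (hv q hq).1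
    have h5 : ∑ q ∈ EB.QQ w, 1 / (q : ℝ) * zA lam q (2 ^ w) n γ ^ 2 ≤
        ∑ q ∈ EB.QQ w, (1 / (q : ℝ) * EB.zz lam q (2 ^ w) n γ (v q) ^ 2 +
          7 * e * (1 / (q : ℝ))) := by
      refine sum_le_sum fun q hq => ?_
      have h6 := (hv q hq).2
      have h7 := (saz_zA lam hl q (2 ^ w) n (saz_q hq).1 (saz_q hq).2 γ).1
      have h8 := hz3 q hq γ (v q) (hv q hq).1
      have h9 := saz_nn lam q (2 ^ w) n γ (v q)
      have h10 : zA lam q (2 ^ w) n γ ^ 2 ≤ EB.zz lam q (2 ^ w) n γ (v q) ^ 2 + 7 * e := by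
        have h11 := pow_le_pow_left₀ h7 h6 2
        nlinarith
      have h12 := mul_le_mul_of_nonneg_left h10 (hinv q hq)
      linarith
    rw [sum_add_distrib, ← mul_sum] at h5
    linarith

end Pool.Agent.H48.GSW
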