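import Pool.Agent.H6.GS2.Bas
import Pool.Agent.H20.ENM.QMS

/-!
# Tools for the rows ONG and CHW of the board gsw (MP_c59857_nt, theorem (G))
-/

set_option autoImplicit false

open Finset Pool.Agent.H6.N4D Pool.Agent.H93 Pool.Agent.H93.GS Pool.Agent.H6.GS2

namespace Pool.Agent.H48.GSW

/-! ## the primes of a level -/

theorem ong_q {w q : ℕ} (hq : q ∈ EB.QQ w) : q.Prime ∧ 1 ≤ q ∧ q ≤ 2 ^ (w / 200) ∧
    2 ^ (w / 400) < q ∧ q ≤ 2 ^ w ∧ q ^ 100 ≤ 2 ^ w := by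
  unfold EB.QQ at hq
  rw [mem_filter, mem_Ioc] at hq
  refine ⟨hq.2, hq.2.one_lt.le, hq.1.2, hq.1.1,
    hq.1.2.trans (Nat.pow_le_pow_right (by norm_num) (by omega)), ?_⟩
  calc q ^ 100 ≤ (2 ^ (w / 200)) ^ 100 := Nat.pow_le_pow_left hq.1.2 _
    _ = 2 ^ (w / 200 * 100) := by rw [← pow_mul]
    _ ≤ 2 ^ w := Nat.pow_le_pow_right (by norm_num) (by omega)

theorem ind_nonneg (p : Prop) : 0 ≤ EB.ind p := by
  unfold EB.ind; split_ifs <;> norm_num

theorem ind_le_one (p : Prop) : EB.ind p ≤ 1 := by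
  unfold EB.ind; split_ifs <;> norm_num

theorem ind_true {p : Prop} (h : p) : EB.ind p = 1 := by
  unfold EB.ind; rw [if_pos h]

theorem ind_false {p : Prop} (h : ¬ p) : EB.ind p = 0 := by
  unfold EB.ind; rw [if_neg h]

theorem ind_mono {p q : Prop} (h : p → q) : EB.ind p ≤ EB.ind q := by
  by_cases hp : p
  · rw [ind_true hp, ind_true (h hp)]
  · rw [ind_false hp]; exact ind_nonneg q

/-! ## exceptional primes -/

/-- two different primes of a level are not both exceptional for the same pair -/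
theorem exc_pair {m q q' : ℕ} (hm : 400 ≤ m) (hq : q ∈ EB.QQ m) (hq' : q' ∈ EB.QQ m)
    (x : ℝ) (b b' : ℤ) (hb : ¬ ((q : ℤ) ∣ b))
    (h1 : nd (x - (b : ℝ) / q) ≤ ((2 ^ m : ℕ) : ℝ) ^ (-(1 / 2) : ℝ))
    (h2 : nd (x - (b' : ℝ) / q') ≤ ((2 ^ m : ℕ) : ℝ) ^ (-(1 / 2) : ℝ)) : q = q' := by
  by_contra hne
  obtain ⟨hp, hq1, hq2, -, -, -⟩ := ong_q hq
  obtain ⟨hp', hq1', hq2', -, -, -⟩ := ong_q hq'
  have hqR : (0 : ℝ) < q := by exact_mod_cast hq1
  have hqR' : (0 : ℝ) < q' := by exact_mod_cast hq1'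
  -- the difference
  have h3 : nd ((b : ℝ) / q - (b' : ℝ) / q') ≤ 2 * ((2 ^ m : ℕ) : ℝ) ^ (-(1 / 2) : ℝ) := by
    have := nd_tri ((b : ℝ) / q) x ((b' : ℝ) / q')
    rw [nd_sub_comm ((b : ℝ) / q) x] at this
    linarith
  obtain ⟨k, hk⟩ := exists_int ((b : ℝ) / q - (b' : ℝ) / q')
  have h4 : (b : ℝ) / q - (b' : ℝ) / q' - k =
      ((b * q' - b' * q - k * (q * q') : ℤ) : ℝ) / (q * q') := by
    push_cast
    field_simp
  have h5 : (b * q' - b' * q - k * (q * q') : ℤ) ≠ 0 := by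
    intro h0
    have h6 : (q : ℤ) ∣ b * q' := ⟨b' + k * q', by linarith⟩
    have hpz : Prime (q : ℤ) := Nat.prime_iff_prime_int.1 hp
    rcases hpz.dvd_or_dvd h6 with h7 | h7
    · exact hb h7
    · have h8 : q ∣ q' := by exact_mod_cast h7
      rcases (Nat.dvd_prime hp').1 h8 with h9 | h9
      · exact hp.one_lt.ne' h9
      · exact hne h9
  have h6 : (1 : ℝ) / (q * q') ≤ nd ((b : ℝ) / q - (b' : ℝ) / q') := by
    rw [← hk, h4, abs_div, abs_of_pos (mul_pos hqR hqR')]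
    apply div_le_div_of_nonneg_right _ (mul_pos hqR hqR').le
    have h7 : (1 : ℤ) ≤ |(b * q' - b' * q - k * (q * q') : ℤ)| := Int.one_le_abs h5
    exact_mod_cast h7
  have h7 : (q : ℝ) * q' ≤ 2 ^ (2 * (m / 200)) := by
    have h8 : (q : ℝ) ≤ 2 ^ (m / 200) := by exact_mod_cast hq2
    have h9 : (q' : ℝ) ≤ 2 ^ (m / 200) := by exact_mod_cast hq2'
    calc (q : ℝ) * q' ≤ 2 ^ (m / 200) * 2 ^ (m / 200) := by gcongr
      _ = 2 ^ (2 * (m / 200)) := by rw [← pow_add]; congr 1; ring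
  have h8 : (2 : ℝ) ^ (2 * (m / 200) + 2) ≤ ((2 ^ m : ℕ) : ℝ) ^ (1 / 2 : ℝ) := by
    have h9 : (((2 ^ m : ℕ) : ℝ)) ^ (1 / 2 : ℝ) = (2 : ℝ) ^ ((m : ℝ) * (1 / 2)) := by
      push_cast
      rw [← Real.rpow_natCast, ← Real.rpow_mul (by norm_num : (0 : ℝ) ≤ 2)]
    rw [h9, ← Real.rpow_natCast]
    apply Real.rpow_le_rpow_of_exponent_le (by norm_num)
    have h10 : 200 * (m / 200) ≤ m := Nat.mul_div_le m 200
    have h11 : (200 : ℝ) * ((m / 200 : ℕ) : ℝ) ≤ m := by exact_mod_cast h10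
    have h12 : (400 : ℝ) ≤ m := by exact_mod_cast hm
    push_cast
    linarith
  have h9 : ((2 ^ m : ℕ) : ℝ) ^ (-(1 / 2) : ℝ) * ((2 ^ m : ℕ) : ℝ) ^ (1 / 2 : ℝ) = 1 := by
    rw [← Real.rpow_add (by positivity)]
    norm_num
  have h10 : (1 : ℝ) ≤ 2 * ((2 ^ m : ℕ) : ℝ) ^ (-(1 / 2) : ℝ) * (q * q') := by
    have h11 := h6.trans h3
    rwa [div_le_iff₀ (mul_pos hqR hqR')] at h11
  have hpos : (0 : ℝ) < ((2 ^ m : ℕ) : ℝ) ^ (-(1 / 2) : ℝ) := by positivity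
  have h11 : 2 * ((2 ^ m : ℕ) : ℝ) ^ (-(1 / 2) : ℝ) * (q * q') ≤
      2 * ((2 ^ m : ℕ) : ℝ) ^ (-(1 / 2) : ℝ) * 2 ^ (2 * (m / 200)) := by gcongr
  have h12 : ((2 ^ m : ℕ) : ℝ) ^ (-(1 / 2) : ℝ) * 2 ^ (2 * (m / 200) + 2) ≤ 1 :=
    (mul_le_mul_of_nonneg_left h8 hpos.le).trans (le_of_eq h9)
  rw [pow_add] at h12
  linarith

/-- the sum of `1 / q` over the exceptional primes of a level is small -/
theorem exc_sum {m : ℕ} (hm : 400 ≤ m) (r : ℕ) (γ : ℕ → ℝ) :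
    ∑ q ∈ EB.QQ m, 1 / (q : ℝ) * EB.ind (Exc q (2 ^ m) r γ) ≤
      (r : ℝ) ^ 2 * (1 / 2) ^ (m / 1000) := by
  classical
  -- the event of a pair
  let E : ℕ → ℕ → ℕ → Prop := fun i i' q => ∃ b : ℤ, ¬ ((q : ℤ) ∣ b) ∧
    nd (γ i - γ i' - (b : ℝ) / q) ≤ ((2 ^ m : ℕ) : ℝ) ^ (-(1 / 2) : ℝ)
  have h1 : ∀ q, EB.ind (Exc q (2 ^ m) r γ) ≤
      ∑ i ∈ range r, ∑ i' ∈ range r, EB.ind (E i i' q) := by
    intro q
    have hnn : ∀ i ∈ range r, 0 ≤ ∑ i' ∈ range r, EB.ind (E i i' q) := fun i _ =>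
      sum_nonneg fun i' _ => ind_nonneg _
    by_cases he : Exc q (2 ^ m) r γ
    · obtain ⟨i, hi, i', hi', b, hb, hn⟩ := he
      have he' : Exc q (2 ^ m) r γ := ⟨i, hi, i', hi', b, hb, hn⟩
      rw [ind_true he']
      have h2 : EB.ind (E i i' q) = 1 := ind_true ⟨b, hb, hn⟩
      rw [← h2]
      exact (single_le_sum (f := fun i' => EB.ind (E i i' q))
        (fun _ _ => ind_nonneg _) (mem_range.2 hi')).trans
        (single_le_sum (f := fun i => ∑ i' ∈ range r, EB.ind (E i i' q)) hnn (mem_range.2 hi))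
    · rw [ind_false he]
      exact sum_nonneg hnn
  -- one pair
  have h2 : ∀ i i', ∑ q ∈ EB.QQ m, 1 / (q : ℝ) * EB.ind (E i i' q) ≤ (1 / 2) ^ (m / 1000) := by
    intro i i'
    by_cases hex : ∃ q₀ ∈ EB.QQ m, E i i' q₀
    · obtain ⟨q₀, hq₀, b₀, hb₀, hn₀⟩ := hex
      have h3 : ∑ q ∈ EB.QQ m, 1 / (q : ℝ) * EB.ind (E i i' q) =
          1 / (q₀ : ℝ) * EB.ind (E i i' q₀) := by
        apply sum_eq_single_of_mem q₀ hq₀
        intro q hq hne
        have h4 : ¬ E i i' q := by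
          rintro ⟨b, hb, hn⟩
          exact hne (exc_pair hm hq hq₀ (γ i - γ i') b b₀ hb hn hn₀)
        rw [ind_false h4, mul_zero]
      rw [h3]
      obtain ⟨-, -, -, hlow, -, -⟩ := ong_q hq₀
      have h5 : (2 : ℝ) ^ (m / 400) ≤ q₀ := by exact_mod_cast hlow.le
      have h6 : (1 : ℝ) / q₀ ≤ (1 / 2) ^ (m / 400) := by
        rw [div_pow, one_pow]
        exact one_div_le_one_div_of_le (by positivity) h5
      have h7 : ((1 : ℝ) / 2) ^ (m / 400) ≤ (1 / 2) ^ (m / 1000) :=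
        pow_le_pow_of_le_one (by norm_num) (by norm_num)
          (Nat.div_le_div_left (by norm_num) (by norm_num))
      have h8 : (0 : ℝ) ≤ 1 / (q₀ : ℝ) := by positivity
      calc 1 / (q₀ : ℝ) * EB.ind (E i i' q₀) ≤ 1 / (q₀ : ℝ) * 1 := by
            gcongr; exact ind_le_one _
        _ = 1 / (q₀ : ℝ) := mul_one _
        _ ≤ _ := h6.trans h7
    · have h3 : ∑ q ∈ EB.QQ m, 1 / (q : ℝ) * EB.ind (E i i' q) = 0 := by
        apply sum_eq_zero
        intro q hq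
        rw [ind_false (fun h => hex ⟨q, hq, h⟩), mul_zero]
      rw [h3]; positivity
  calc ∑ q ∈ EB.QQ m, 1 / (q : ℝ) * EB.ind (Exc q (2 ^ m) r γ)
      ≤ ∑ q ∈ EB.QQ m, 1 / (q : ℝ) * ∑ i ∈ range r, ∑ i' ∈ range r, EB.ind (E i i' q) := by
        apply sum_le_sum
        intro q _
        have : (0 : ℝ) ≤ 1 / (q : ℝ) := by positivity
        exact mul_le_mul_of_nonneg_left (h1 q) this
    _ = ∑ i ∈ range r, ∑ i' ∈ range r, ∑ q ∈ EB.QQ m, 1 / (q : ℝ) * EB.ind (E i i' q) := by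
        have h3 : ∀ q ∈ EB.QQ m, 1 / (q : ℝ) * ∑ i ∈ range r, ∑ i' ∈ range r,
            EB.ind (E i i' q) = ∑ i ∈ range r, ∑ i' ∈ range r, 1 / (q : ℝ) *
              EB.ind (E i i' q) := by
          intro q _
          rw [mul_sum]
          exact sum_congr rfl fun i _ => mul_sum _ _ _
        rw [sum_congr rfl h3, sum_comm]
        exact sum_congr rfl fun i _ => sum_comm
    _ ≤ ∑ _i ∈ range r, ∑ _i' ∈ range r, ((1 : ℝ) / 2) ^ (m / 1000) :=
        sum_le_sum fun i _ => sum_le_sum fun i' _ => h2 i i'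
    _ = (r : ℝ) ^ 2 * (1 / 2) ^ (m / 1000) := by
        rw [sum_const, sum_const, card_range, nsmul_eq_mul, nsmul_eq_mul]; ring

/-! ## the energy of the pieces -/

/-- the energy of a window is at most the mean of the energies of its pieces -/
theorem En_le_mean (hP : T_PCA) (th : ℝ) (lam : ℕ → ℝ) (q P L n : ℕ) (hth : 0 ≤ th)
    (hl : ∀ m, |lam m| ≤ 1) (hq : 1 ≤ q) (hP1 : 1 ≤ P) (hL : 1 ≤ L) :
    En th lam q (P * L) n ≤ (∑ j ∈ range P, En th lam q L (n + j * L)) / P := by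
  apply ciSup_le
  intro g
  rw [(hP q P L n hP1 hL).2.2 th lam g]
  have : ∑ j ∈ range P, J th lam q L (n + j * L) g ≤
      ∑ j ∈ range P, En th lam q L (n + j * L) :=
    sum_le_sum fun j _ => J_le_En th lam q L _ hth hl hq hL g
  gcongr

theorem sum_two_mul (f : ℕ → ℝ) (M : ℕ) :
    ∑ l ∈ range (2 * M), f l = ∑ j ∈ range M, (f (2 * j) + f (2 * j + 1)) := by
  induction M with
  | zero => simp
  | succ M ih =>
    rw [show 2 * (M + 1) = 2 * M + 1 + 1 by ring, sum_range_succ, sum_range_succ, ih,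
      sum_range_succ]
    ring

/-- the mean energy of the pieces increases with the number of the pieces -/
theorem mean_mono (hP : T_PCA) (th : ℝ) (lam : ℕ → ℝ) (q w n : ℕ) (hth : 0 ≤ th)
    (hl : ∀ m, |lam m| ≤ 1) (hq : 1 ≤ q) {p p' : ℕ} (h : p ≤ p') (hw : p' ≤ w) :
    (∑ j ∈ range (2 ^ p), En th lam q (2 ^ (w - p)) (n + j * 2 ^ (w - p))) / ((2 ^ p : ℕ) : ℝ) ≤
      (∑ j ∈ range (2 ^ p'), En th lam q (2 ^ (w - p')) (n + j * 2 ^ (w - p'))) /
        ((2 ^ p' : ℕ) : ℝ) := by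
  induction p', h using Nat.le_induction with
  | base => exact le_rfl
  | succ r hr ih =>
    refine (ih (by omega)).trans ?_
    have e1 : 2 ^ (w - r) = 2 * 2 ^ (w - (r + 1)) := by
      rw [← pow_succ']; congr 1; omega
    have e2 : 2 ^ (r + 1) = 2 * 2 ^ r := by rw [pow_succ']
    rw [e1, e2, sum_two_mul]
    have hL : 1 ≤ 2 ^ (w - (r + 1)) := Nat.one_le_two_pow
    have h1 : ∀ j ∈ range (2 ^ r), En th lam q (2 * 2 ^ (w - (r + 1)))
        (n + j * (2 * 2 ^ (w - (r + 1)))) ≤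
        (En th lam q (2 ^ (w - (r + 1))) (n + 2 * j * 2 ^ (w - (r + 1))) +
          En th lam q (2 ^ (w - (r + 1))) (n + (2 * j + 1) * 2 ^ (w - (r + 1)))) / 2 := by
      intro j _
      have h2 := En_le_mean hP th lam q 2 (2 ^ (w - (r + 1)))
        (n + j * (2 * 2 ^ (w - (r + 1)))) hth hl hq (by norm_num) hL
      rw [sum_range_succ, sum_range_one] at h2
      have e3 : n + j * (2 * 2 ^ (w - (r + 1))) + 0 * 2 ^ (w - (r + 1)) =
          n + 2 * j * 2 ^ (w - (r + 1)) := by ring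
      have e4 : n + j * (2 * 2 ^ (w - (r + 1))) + 1 * 2 ^ (w - (r + 1)) =
          n + (2 * j + 1) * 2 ^ (w - (r + 1)) := by ring
      rw [e3, e4] at h2
      exact_mod_cast h2
    have h3 := sum_le_sum h1
    rw [← sum_div] at h3
    have hpos : (0 : ℝ) < ((2 ^ r : ℕ) : ℝ) := by positivity
    have e5 : ((2 * 2 ^ r : ℕ) : ℝ) = 2 * ((2 ^ r : ℕ) : ℝ) := by push_cast; ring
    rw [e5, div_le_div_iff₀ hpos (by positivity)]
    have h4 := mul_le_mul_of_nonneg_right h3 (show (0 : ℝ) ≤ 2 * ((2 ^ r : ℕ) : ℝ) by positivity)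
    refine h4.trans (le_of_eq ?_)
    ring

theorem gapq_mono (hP : T_PCA) (th : ℝ) (lam : ℕ → ℝ) (q w n : ℕ) (hth : 0 ≤ th)
    (hl : ∀ m, |lam m| ≤ 1) (hq : 1 ≤ q) {p p' : ℕ} (h : p ≤ p') (hw : p' ≤ w) :
    gapq th lam q (2 ^ p) (2 ^ (w - p)) n ≤ gapq th lam q (2 ^ p') (2 ^ (w - p')) n := by
  unfold gapq
  have e1 : 2 ^ p * 2 ^ (w - p) = 2 ^ w := by rw [← pow_add]; congr 1; omega
  have e2 : 2 ^ p' * 2 ^ (w - p') = 2 ^ w := by rw [← pow_add]; congr 1; omega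
  rw [e1, e2]
  linarith [mean_mono hP th lam q w n hth hl hq h hw]

theorem gap_mono (hP : T_PCA) (th : ℝ) (lam : ℕ → ℝ) (w n : ℕ) (hth : 0 ≤ th)
    (hl : ∀ m, |lam m| ≤ 1) {p p' : ℕ} (h : p ≤ p') (hw : p' ≤ w) :
    gap th lam (2 ^ p) (2 ^ (w - p)) n ≤ gap th lam (2 ^ p') (2 ^ (w - p')) n :=
  gapq_mono hP th lam 1 w n hth hl le_rfl h hw

/-! ## the linear term and the mean squares -/

theorem ar_D (q N n : ℕ) (F : ℕ → ℝ) :
    ar q N n F - ar 1 N n F = ar 1 N n (fun x => EB.D q x * F x) := by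
  unfold ar EB.D
  have h1 : (Ioc n (n + N)).filter (fun m => 1 ∣ m) = Ioc n (n + N) :=
    filter_true_of_mem fun m _ => one_dvd m
  rw [h1]
  have h2 : ∑ m ∈ Ioc n (n + N), ((if q ∣ m then (q : ℝ) else 0) - 1) * F m =
      (∑ m ∈ (Ioc n (n + N)).filter (fun m => q ∣ m), F m) * q - ∑ m ∈ Ioc n (n + N), F m := by
    have h3 : ∀ m ∈ Ioc n (n + N), ((if q ∣ m then (q : ℝ) else 0) - 1) * F m =
        (if q ∣ m then F m else 0) * q - F m := by
      intro m _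
      split_ifs <;> ring
    rw [sum_congr rfl h3, sum_sub_distrib, ← sum_mul, sum_filter]
  rw [h2]
  push_cast
  ring

theorem J_sub (th : ℝ) (lam : ℕ → ℝ) (q N n : ℕ) (g : Ex) :
    J th lam q N n g = J th lam 1 N n g + lin lam q N n g - nrm q N n g := by
  unfold J lin nrm
  have h : ∀ q', ar q' N n (fun m => 2 * lam m * (g.f m).re - ‖g.f m‖ ^ 2) =
      2 * ar q' N n (fun m => lam m * (g.f m).re) - ar q' N n (fun m => ‖g.f m‖ ^ 2) := by
    intro q'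
    rw [← ar_mul, ← ar_sub]
    exact ar_congr _ _ _ fun m _ _ => by ring
  rw [h q, h 1]
  ring

theorem nrm_le (q N n : ℕ) (g : Ex) : |nrm q N n g| ≤
    ‖ac 1 N n (fun x => (EB.D q x : ℂ) * g.f x * (starRingEnd ℂ) (g.f x))‖ := by
  unfold nrm
  rw [ar_D]
  have h1 : ar 1 N n (fun x => EB.D q x * ‖g.f x‖ ^ 2) =
      (ac 1 N n (fun x => (EB.D q x : ℂ) * g.f x * (starRingEnd ℂ) (g.f x))).re := by
    rw [ac_re]
    apply ar_congr
    intro m _ _
    have h2 : (EB.D q m : ℂ) * g.f m * (starRingEnd ℂ) (g.f m) =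
        ((EB.D q m * ‖g.f m‖ ^ 2 : ℝ) : ℂ) := by
      rw [mul_assoc, Complex.mul_conj, Complex.normSq_eq_norm_sq]
      push_cast; ring
    rw [h2, Complex.ofReal_re]
  rw [h1]
  exact Complex.abs_re_le_norm _

/-- the linear term is bounded -/
theorem lin_le {lam : ℕ → ℝ} (hl : ∀ m, |lam m| ≤ 1) {q N n : ℕ} (hq : 1 ≤ q) (hN : q ≤ N)
    (g : Ex) : |lin lam q N n g| ≤ 8 * g.nm := by
  have hN0 : (0 : ℝ) < N := by exact_mod_cast (hq.trans hN)
  have h0 : ∀ q', 1 ≤ q' → q' ≤ N → |ar q' N n (fun m => lam m * (g.f m).re)| ≤ 2 * g.nm := by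
    intro q' hq' hN'
    have h1 : ∀ m, |lam m * (g.f m).re| ≤ g.nm := by
      intro m
      rw [abs_mul]
      calc |lam m| * |(g.f m).re| ≤ 1 * g.nm := by
            apply mul_le_mul (hl m) ((Complex.abs_re_le_norm _).trans (norm_f_le g m))
              (abs_nonneg _) zero_le_one
        _ = g.nm := one_mul _
    have h2 : ar q' N n (fun _ => (1 : ℝ)) ≤ 2 := by
      refine (ar_one_le q' N n hq' (hq'.trans hN')).trans ?_
      have : (q' : ℝ) / N ≤ 1 := by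
        rw [div_le_one hN0]; exact_mod_cast hN'
      linarith
    have h3 : ar q' N n (fun _ => g.nm) ≤ 2 * g.nm := by
      have : ar q' N n (fun _ => g.nm) = g.nm * ar q' N n (fun _ => (1 : ℝ)) := by
        rw [← ar_mul]; simp
      rw [this, mul_comm]
      exact mul_le_mul_of_nonneg_right h2 (nm_nonneg g)
    rw [abs_le]
    constructor
    · have h4 : ar q' N n (fun _ => -g.nm) ≤ ar q' N n (fun m => lam m * (g.f m).re) :=
        ar_mono _ _ _ fun m _ _ => (abs_le.1 (h1 m)).1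
      have h5 : ar q' N n (fun _ => -g.nm) = -ar q' N n (fun _ => g.nm) := by
        have := ar_mul q' N n (-1) (fun _ => g.nm)
        simp only [neg_mul, one_mul] at this
        exact this
      linarith
    · exact (ar_mono _ _ _ fun m _ _ => (abs_le.1 (h1 m)).2).trans h3
  unfold lin
  have h1 := h0 q hq hN
  have h2 := h0 1 le_rfl (hq.trans hN)
  rw [abs_le] at h1 h2 ⊢
  constructor <;> linarith [h1.1, h1.2, h2.1, h2.2]

end Pool.Agent.H48.GSW
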